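import Pool.Agent.MP_1d5a21_lc.Mg.Final

namespace Pool.Agent.Results.MP_1d5a21_lc.LargeContinuum

open Pool.Agent.Lib.Forcing Pool.Agent.MP_1d5a21_lc

theorem result :
    ∃ (M : Type 1) (E : M → M → Prop), ZFC E ∧ ∃ w v, Om E w ∧ Om1 E w v ∧
      (∃ F, Spl E w F ∧ Leq E F v) ∧ (∀ F, Spl E w F → ¬ Leq E F w) ∧ Pol E w v ∧
      ∃ K, Big E w K ∧ Bdd E w K ∧ Ioe E w K :=
  model_of ex_good

end Pool.Agent.Results.MP_1d5a21_lc.LargeContinuum
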